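import Pool.Agent.Y882.BT.Main

/-! Composite numbers without small prime factors in almost all short intervals. -/

set_option autoImplicit false

open Finset Filter Topology

namespace Pool.Agent.Y882.BT

open Pool.Agent.Y882 Pool.Agent.Y882.JR
open Pool.Agent.Y882.PX (ro)
open Pool.Agent.W23.DC (SF Mer)

open Classical in
/-- the composite integers in `(M, M + H]` all of whose prime factors are at least `w` -/
noncomputable def compIn (w : ℝ) (M H : ℕ) : Finset ℕ :=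
  (Ioc M (M + H)).filter (fun m : ℕ => ¬ m.Prime ∧ ∀ p : ℕ, p.Prime → p ∣ m → w ≤ p)

theorem rgh_le (Y : ℕ) (hY : 2 ≤ Y) (ζ : ℝ) (hζ : ζ ≤ 1) (M H : ℕ) :
    rgh (LK 1 0) Y ζ H M ≤ (compIn ((Y : ℝ) ^ ζ) M H).card + (primesIn 1 0 (1 * M) (1 * (M + H)) : ℝ) := by
  classical
  unfold rgh primesIn
  rw [one_mul, one_mul]
  have hYr : (2 : ℝ) ≤ Y := by exact_mod_cast hY
  have h1 : ((Icc 1 H).filter (fun j : ℕ => ∀ p ∈ PZ Y ζ,
      ¬ p ∣ ((LK 1 0).eval ((M + j : ℕ) : ℤ)).natAbs)).card ≤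
      (compIn ((Y : ℝ) ^ ζ) M H ∪ (Ioc M (M + H)).filter (fun p : ℕ => p.Prime ∧
        (p : ℤ) ≡ 0 [ZMOD (1 : ℕ)])).card := by
    apply card_le_card_of_injOn (fun j => M + j)
    · intro j hj
      rw [mem_coe, mem_filter, mem_Icc] at hj
      obtain ⟨⟨hj1, hj2⟩, hj3⟩ := hj
      rw [mem_coe, mem_union]
      by_cases hp : (M + j).Prime
      · right
        show M + j ∈ _
        rw [mem_filter, mem_Ioc]
        refine ⟨⟨by omega, by omega⟩, hp, ?_⟩
        exact Int.modEq_one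
      · left
        show M + j ∈ _
        unfold compIn
        rw [mem_filter, mem_Ioc]
        refine ⟨⟨by omega, by omega⟩, hp, ?_⟩
        intro p hpp hpd
        by_contra hlt
        push Not at hlt
        have hpY : (p : ℝ) ≤ Y := by
          refine hlt.le.trans ?_
          calc (Y : ℝ) ^ ζ ≤ (Y : ℝ) ^ (1 : ℝ) :=
                Real.rpow_le_rpow_of_exponent_le (by linarith) hζ
            _ = Y := Real.rpow_one _
        refine hj3 p ?_ ?_
        · unfold PZ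
          rw [mem_filter, mem_Icc]
          exact ⟨⟨hpp.pos, by exact_mod_cast hpY⟩, hpp, (tt_lt Y p ζ hY hpp.pos).2 hlt⟩
        · rw [LK_eval]
          have e : ((1 : ℕ) : ℤ) * ((M + j : ℕ) : ℤ) + 0 = ((M + j : ℕ) : ℤ) := by push_cast; ring
          rw [e, Int.natAbs_natCast]
          exact hpd
    · intro a _ b _ hab
      have : M + a = M + b := hab
      omega
  have h2 := h1.trans (card_union_le _ _)
  exact_mod_cast h2

open Classical in
/-- **Few positions without composite rough numbers.** -/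
theorem comp {A0 : ℝ} {F f : ℝ → ℝ} (hSF : SF A0 F f)
    (hA : A0 = 2 * Real.exp Real.eulerMascheroniConstant) :
    ∃ c : ℝ, 0 < c ∧ ∀ ε : ℝ, 0 < ε → ∃ X0 : ℕ, ∀ X : ℕ, X0 ≤ X → ∀ H : ℕ, 1 ≤ H →
      (H : ℝ) ≤ (X : ℝ) ^ (1 / 2 : ℝ) →
      (((Icc 1 X).filter (fun M : ℕ =>
        ((compIn ((X : ℝ) ^ (2 / 15 : ℝ)) M H).card : ℝ) < c * (H / Real.log X))).card : ℝ) ≤
      (X : ℝ) ^ (1 + ε) / H := by
  have hA0 := hSF.pos
  set E : ℝ := Real.exp (-Real.eulerMascheroniConstant) with hE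
  have hE0 : 0 < E := Real.exp_pos _
  have hAE : A0 * E = 2 := by
    rw [hA, hE, mul_assoc, ← Real.exp_add]
    simp
  have hlog : 1 < Real.log (11 / 4) := by
    rw [Real.lt_log_iff_exp_lt (by norm_num)]
    have := Real.exp_one_lt_d9
    linarith
  set κ : ℝ := 4 * (Real.log (11 / 4) - 1) with hκ
  have hκ0 : 0 < κ := by rw [hκ]; linarith
  have hf : f ((1 / 2 : ℝ) / (2 / 15)) = A0 * Real.log (11 / 4) / (15 / 4) := by
    rw [show ((1 / 2 : ℝ) / (2 / 15)) = 15 / 4 by norm_num, hSF.f4 _ (by norm_num) (by norm_num)]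
    norm_num
  set f0 : ℝ := A0 * Real.log (11 / 4) / (15 / 4) with hf0
  have hfE : f0 * E / (2 / 15) = 4 + κ := by
    rw [hf0, hκ]
    have : A0 * Real.log (11 / 4) / (15 / 4) * E / (2 / 15) = (A0 * E) * Real.log (11 / 4) * 2 := by
      ring
    rw [this, hAE]
    ring
  obtain ⟨θ, hθ0, hθE, hθf, hθ⟩ : ∃ θ : ℝ, 0 < θ ∧ θ < E ∧ θ < f0 ∧
      4 + κ * (3 / 4) ≤ (f0 - θ) * (E - θ) / (2 / 15) := by
    have hcont : Tendsto (fun θ : ℝ => (f0 - θ) * (E - θ) / (2 / 15)) (nhdsWithin 0 (Set.Ioi 0))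
        (nhds ((f0 - 0) * (E - 0) / (2 / 15))) := by
      apply Tendsto.mono_left _ nhdsWithin_le_nhds
      exact (Continuous.tendsto (by fun_prop) 0)
    have h1 : 4 + κ * (3 / 4) < (f0 - 0) * (E - 0) / (2 / 15) := by
      rw [sub_zero, sub_zero, hfE]
      linarith
    have hf00 : 0 < f0 := by rw [hf0]; positivity
    have h3 : ∀ᶠ θ : ℝ in nhdsWithin 0 (Set.Ioi 0), θ < E :=
      nhdsWithin_le_nhds (gt_mem_nhds hE0)
    have h4 : ∀ᶠ θ : ℝ in nhdsWithin 0 (Set.Ioi 0), θ < f0 :=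
      nhdsWithin_le_nhds (gt_mem_nhds hf00)
    have h2 := ((hcont.eventually (lt_mem_nhds h1)).and (h3.and h4)).and self_mem_nhdsWithin
    obtain ⟨θ, ⟨h5, h6, h7⟩, h8⟩ := h2.exists
    exact ⟨θ, h8, h6, h7, h5.le⟩
  refine ⟨κ / 2, by positivity, fun ε hε => ?_⟩
  obtain ⟨X1, HP⟩ := main hSF hA 0 (1 / 2) (κ / 4) (ε / 2) le_rfl le_rfl (by norm_num)
    (by positivity) (by linarith)
  obtain ⟨ε₁, η, hε₁, hε₁ζ, hη, Y1, HE⟩ := engJR 1 A0 F f hSF (1 / 2) (2 / 15) θ (ε / 2)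
    (by norm_num) (by norm_num) (by norm_num) hθ0 (by linarith)
  obtain ⟨Y2, HM⟩ := mer_LK 0 ε₁ (2 / 15) η le_rfl hε₁ (by norm_num) hη
  have hlim : Tendsto (fun X : ℕ => VM ((X : ℝ) ^ (2 / 15 : ℝ)) * Real.log ((X : ℝ) ^ (2 / 15 : ℝ)))
      atTop (nhds E) := by
    have h1 : Tendsto (fun X : ℕ => ((X : ℝ) ^ (2 / 15 : ℝ))) atTop atTop :=
      (tendsto_rpow_atTop (by norm_num)).comp tendsto_natCast_atTop_atTop
    exact VM_lim.comp h1
  have ev1 : ∀ᶠ X : ℕ in atTop, E - θ ≤ VM ((X : ℝ) ^ (2 / 15 : ℝ)) *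
      Real.log ((X : ℝ) ^ (2 / 15 : ℝ)) := hlim.eventually (le_mem_nhds (by linarith))
  have ev3 : ∀ᶠ Y : ℕ in atTop, (2 / 15 / (E - θ)) * Real.log Y ≤ (Y : ℝ) ^ (ε / 2 / 32) := by
    have h1 := (isLittleO_log_rpow_atTop (show 0 < ε / 2 / 32 by linarith)).bound
      (show (0 : ℝ) < 1 / (2 / 15 / (E - θ)) by
        have : 0 < E - θ := by linarith
        positivity)
    filter_upwards [tendsto_natCast_atTop_atTop.eventually h1, eventually_ge_atTop 1] with Y hY hY1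
    have hY1r : (1 : ℝ) ≤ Y := by exact_mod_cast hY1
    have hEθ : 0 < E - θ := by linarith
    rw [Real.norm_of_nonneg (Real.log_nonneg hY1r), Real.norm_of_nonneg (by positivity)] at hY
    rw [div_mul_eq_mul_div, one_mul, le_div_iff₀ (by positivity)] at hY
    linarith
  have ev4 : ∀ᶠ X : ℕ in atTop, (3 : ℝ) ≤ (X : ℝ) ^ (ε / 2) :=
    ((tendsto_rpow_atTop (by linarith)).comp tendsto_natCast_atTop_atTop).eventually_ge_atTop _
  obtain ⟨Y3, hY3⟩ := eventually_atTop.1 (ev1.and (ev3.and (ev4.and (eventually_ge_atTop 3))))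
  refine ⟨max (max Y1 Y2) (max Y3 X1), ?_⟩
  intro X hX H hH hHX
  have hX1 : Y1 ≤ X := ((le_max_left _ _).trans (le_max_left _ _)).trans hX
  have hX2 : Y2 ≤ X := ((le_max_right _ _).trans (le_max_left _ _)).trans hX
  obtain ⟨e1, e3, e4, e5⟩ := hY3 X (((le_max_left _ _).trans (le_max_right _ _)).trans hX)
  have hX3 : X1 ≤ X := ((le_max_right _ _).trans (le_max_right _ _)).trans hX
  have hXr : (3 : ℝ) ≤ X := by exact_mod_cast e5
  have hX0 : (0 : ℝ) < X := by linarith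
  have hX1r : (1 : ℝ) ≤ X := by linarith
  have hlX : 0 < Real.log X := Real.log_pos (by linarith)
  have hHr : (0 : ℝ) < H := by exact_mod_cast hH
  have hEθ : 0 < E - θ := by linarith
  rw [Real.log_rpow hX0] at e1
  have hg : Int.gcd 0 ((1 : ℕ) : ℤ) = 1 := by simp
  obtain ⟨v1, v2⟩ := vv_LK 1 0 le_rfl hg X (by omega) (2 / 15) (by norm_num)
  have hVM : (E - θ) / (2 / 15 * Real.log X) ≤ VM ((X : ℝ) ^ (2 / 15 : ℝ)) := by
    rw [div_le_iff₀ (by positivity)]
    exact e1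
  have hV : (X : ℝ) ^ (-(ε / 2 / 32)) ≤ vv (LK 1 0) X (2 / 15) := by
    refine le_trans ?_ (hVM.trans v1)
    rw [Real.rpow_neg hX0.le, ← one_div]
    rw [div_le_div_iff₀ (by positivity) (by positivity)]
    have : 2 / 15 * Real.log X = (E - θ) * ((2 / 15 / (E - θ)) * Real.log X) := by
      field_simp
    rw [this, one_mul]
    exact mul_le_mul_of_nonneg_left e3 hEθ.le
  have hmain := HE X hX1 (LK 1 0) X H (fun p hp => ro_LK_le 1 0 hg p hp) (by omega) hV
    (HM X hX2 1 0 le_rfl (by simp) hg)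
  have hprime := HP X hX3 1 0 le_rfl (by simp) hg H hH (by simpa using hHX)
  have hsub : (Icc 1 X).filter (fun M : ℕ =>
        ((compIn ((X : ℝ) ^ (2 / 15 : ℝ)) M H).card : ℝ) < κ / 2 * (H / Real.log X)) ⊆
      (Icc 1 X).filter (fun N => ¬ ((f ((1 / 2 : ℝ) / (2 / 15)) - θ) * (H * vv (LK 1 0) X (2 / 15)) ≤
        rgh (LK 1 0) X (2 / 15) H N ∧ rgh (LK 1 0) X (2 / 15) H N ≤
          (F ((1 / 2 : ℝ) / (2 / 15)) + θ) * (H * vv (LK 1 0) X (2 / 15)))) ∪
      (Icc 1 X).filter (fun M : ℕ =>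
        (2 / (1 / 2 : ℝ) + κ / 4) * (((1 : ℕ) : ℝ) * H / (Nat.totient 1 * Real.log X)) <
          (primesIn 1 0 (1 * M) (1 * (M + H)) : ℝ)) := by
    intro M hM
    rw [mem_filter] at hM
    rw [mem_union, mem_filter, mem_filter]
    by_contra hcon
    push Not at hcon
    obtain ⟨h1, h2⟩ := hcon
    obtain ⟨h3, -⟩ := h1 hM.1
    have h4 := h2 hM.1
    have h5 := rgh_le X (by omega) (2 / 15) (by norm_num) M H
    have h6 : (4 + κ * (3 / 4)) * (H / Real.log X) ≤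
        (f ((1 / 2 : ℝ) / (2 / 15)) - θ) * (H * vv (LK 1 0) X (2 / 15)) := by
      rw [hf]
      calc (4 + κ * (3 / 4)) * (H / Real.log X) ≤
          (f0 - θ) * (E - θ) / (2 / 15) * (H / Real.log X) :=
            mul_le_mul_of_nonneg_right hθ (by positivity)
        _ = (f0 - θ) * (H * ((E - θ) / (2 / 15 * Real.log X))) := by
            field_simp
        _ ≤ (f0 - θ) * (H * vv (LK 1 0) X (2 / 15)) := by
            apply mul_le_mul_of_nonneg_left _ (by linarith)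
            exact mul_le_mul_of_nonneg_left (hVM.trans v1) hHr.le
    have h7 : (2 / (1 / 2 : ℝ) + κ / 4) * (((1 : ℕ) : ℝ) * H / (Nat.totient 1 * Real.log X)) =
        (4 + κ / 4) * (H / Real.log X) := by
      rw [Nat.totient_one]
      push_cast
      ring
    rw [h7] at h4
    have h8 : 0 < H / Real.log X := by positivity
    nlinarith [hM.2]
  have hpow : (X : ℝ) ^ (2 * (1 / 2 : ℝ)) = X := by
    rw [show (2 * (1 / 2 : ℝ)) = 1 by norm_num, Real.rpow_one]
  have hpow2 : (X : ℝ) ^ (2 * (1 / 2 : ℝ) + ε / 2) = X * (X : ℝ) ^ (ε / 2) := by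
    rw [Real.rpow_add hX0, hpow]
  rw [hpow] at hmain
  rw [hpow2] at hprime
  have h1 := card_le_card hsub
  have h2 := h1.trans (card_union_le _ _)
  calc (((Icc 1 X).filter (fun M : ℕ =>
        ((compIn ((X : ℝ) ^ (2 / 15 : ℝ)) M H).card : ℝ) < κ / 2 * (H / Real.log X))).card : ℝ) ≤
      (X + X) / H * (X : ℝ) ^ (ε / 2) + X * (X : ℝ) ^ (ε / 2) / H := by
        refine le_trans (by exact_mod_cast h2) (add_le_add hmain hprime)
    _ = 3 * (X * (X : ℝ) ^ (ε / 2)) / H := by ring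
    _ ≤ (X : ℝ) ^ (ε / 2) * (X * (X : ℝ) ^ (ε / 2)) / H := by
        apply div_le_div_of_nonneg_right _ hHr.le
        exact mul_le_mul_of_nonneg_right e4 (by positivity)
    _ = (X : ℝ) ^ (1 + ε) / H := by
        congr 1
        rw [show (1 + ε) = ε / 2 + (1 + ε / 2) by ring, Real.rpow_add hX0, Real.rpow_add hX0,
          Real.rpow_one]

end Pool.Agent.Y882.BT
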