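import Pool.Agent.Y882.MG.Lin
import Pool.Agent.Y882.JR.Lim
import Pool.Agent.Y781.JR.Dens

/-! Linear polynomials `k n + l`. -/

set_option autoImplicit false

namespace Pool.Agent.Y882.BT

open Finset Filter
open Pool.Agent.W23.DC
open Pool.Agent.Y882.PX
open Pool.Agent.Y882.SI
open Pool.Agent.Y882.MG
open Pool.Agent.Y882.JR

/-- the polynomial `k n + l` -/
noncomputable def LK (k : ℕ) (l : ℤ) : Polynomial ℤ :=
  Polynomial.C (k : ℤ) * Polynomial.X + Polynomial.C l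

theorem LK_eval (k : ℕ) (l n : ℤ) : (LK k l).eval n = k * n + l := by
  unfold LK
  simp

theorem ro_LK (k : ℕ) (l : ℤ) (hkl : Int.gcd l k = 1) (p : ℕ) (hp : p.Prime) :
    ro (LK k l) 0 p = if p ∣ k then 0 else 1 := by
  have : Fact p.Prime := ⟨hp⟩
  have hpp : 0 < p := hp.pos
  rw [ro_eq]
  split_ifs with h
  · rw [card_eq_zero, filter_eq_empty_iff]
    intro n _ hn
    rw [LK_eval, add_zero] at hn
    have h1 : (p : ℤ) ∣ (k : ℤ) := Int.natCast_dvd_natCast.2 h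
    have h2 : (p : ℤ) ∣ l := (Int.dvd_add_right (h1.mul_right _)).1 hn
    have h3 := Int.dvd_coe_gcd h2 h1
    rw [hkl] at h3
    have h4 : p ∣ 1 := by exact_mod_cast h3
    exact hp.one_lt.ne' (Nat.dvd_one.1 h4)
  · rw [card_eq_one]
    have hk : (k : ZMod p) ≠ 0 := by
      intro h0
      exact h ((ZMod.natCast_eq_zero_iff k p).1 h0)
    refine ⟨(-(l : ZMod p) / (k : ZMod p)).val, ?_⟩
    ext n
    rw [mem_filter, mem_range, mem_singleton, LK_eval, add_zero]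
    constructor
    · rintro ⟨h1, h2⟩
      have h3 := (ZMod.intCast_zmod_eq_zero_iff_dvd ((k : ℤ) * n + l) p).2 h2
      push_cast at h3
      have h4 : (n : ZMod p) = -(l : ZMod p) / (k : ZMod p) := by
        rw [eq_div_iff hk]
        linear_combination h3
      rw [← h4, ZMod.val_cast_of_lt h1]
    · intro h1
      rw [h1]
      refine ⟨ZMod.val_lt _, ?_⟩
      rw [← ZMod.intCast_zmod_eq_zero_iff_dvd]
      push_cast
      rw [ZMod.natCast_zmod_val]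
      field_simp
      ring

theorem ro_LK_le (k : ℕ) (l : ℤ) (hkl : Int.gcd l k = 1) (p : ℕ) (hp : p.Prime) :
    ro (LK k l) 0 p ≤ 1 := by
  rw [ro_LK k l hkl p hp]
  split_ifs <;> omega

/-- regularity, uniformly in `k ≤ Y ^ c` -/
theorem mer_LK (c ε₁ υ η : ℝ) (hc : 0 ≤ c) (hε : 0 < ε₁) (hυ : υ ≤ 1) (hη : 0 < η) :
    ∃ Y0 : ℕ, ∀ Y : ℕ, Y0 ≤ Y → ∀ (k : ℕ) (l : ℤ), 1 ≤ k → (k : ℝ) ≤ (Y : ℝ) ^ c →
      Int.gcd l k = 1 →
      Mer (pr Y ε₁ υ) (tt Y) (fun p => (ro (LK k l) 0 p : ℝ) / p) ε₁ υ η := by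
  classical
  obtain ⟨Y1, HM⟩ := mer_lin ε₁ υ (η / 2) hε hυ (by linarith)
  have ev1 : ∀ᶠ Y : ℕ in atTop, (8 * c / η) * Real.log Y ≤ (Y : ℝ) ^ ε₁ := by
    have h1 := (isLittleO_log_rpow_atTop hε).bound
      (show (0 : ℝ) < 1 / (8 * c / η + 1) by positivity)
    filter_upwards [tendsto_natCast_atTop_atTop.eventually h1, eventually_ge_atTop 1] with Y hY hY1
    have hY1r : (1 : ℝ) ≤ Y := by exact_mod_cast hY1
    have hl := Real.log_nonneg hY1r
    rw [Real.norm_of_nonneg hl, Real.norm_of_nonneg (by positivity)] at hY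
    rw [div_mul_eq_mul_div, one_mul, le_div_iff₀ (by positivity)] at hY
    nlinarith
  have ev2 : ∀ᶠ Y : ℕ in atTop, (4 : ℝ) ≤ (Y : ℝ) ^ ε₁ :=
    ((tendsto_rpow_atTop hε).comp tendsto_natCast_atTop_atTop).eventually_ge_atTop _
  obtain ⟨Y2, hY2⟩ := eventually_atTop.1 (ev1.and (ev2.and (eventually_ge_atTop 3)))
  refine ⟨max Y1 Y2, fun Y hY k l hk hkY hkl => ?_⟩
  obtain ⟨e1, e2, e3⟩ := hY2 Y ((le_max_right _ _).trans hY)
  have hYr : (3 : ℝ) ≤ Y := by exact_mod_cast e3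
  have hY0 : (0 : ℝ) < Y := by linarith
  have hm := HM Y ((le_max_left _ _).trans hY)
  intro u v hu huv hv
  have h1 := hm u v hu huv hv
  set S := (pr Y ε₁ υ).filter (fun p => u ≤ tt Y p ∧ tt Y p < v) with hS
  have hSp : ∀ p ∈ S, p.Prime ∧ (Y : ℝ) ^ ε₁ ≤ p := by
    intro p hp
    rw [hS, mem_filter] at hp
    obtain ⟨g1, g2, _⟩ := pr_mem Y p ε₁ υ (by omega) hp.1
    exact ⟨g1, g2⟩
  have h2 : ∑ p ∈ S, (ro LF 0 p : ℝ) / p = ∑ p ∈ S, (ro (LK k l) 0 p : ℝ) / p +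
      ∑ p ∈ S.filter (fun p => p ∣ k), 1 / (p : ℝ) := by
    have h0 : ∑ p ∈ S.filter (fun p => p ∣ k), 1 / (p : ℝ) =
        ∑ p ∈ S, if p ∣ k then 1 / (p : ℝ) else 0 := sum_filter _ _
    rw [h0, ← sum_add_distrib]
    apply sum_congr rfl
    intro p hp
    rw [ro_lin p (hSp p hp).1.pos, ro_LK k l hkl p (hSp p hp).1]
    split_ifs <;> simp
  have h3 : ∑ p ∈ S.filter (fun p => p ∣ k), 1 / (p : ℝ) ≤ η / 2 := by
    have g1 : ((S.filter (fun p => p ∣ k)).card : ℝ) ≤ 2 * (c * Real.log Y) := by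
      have g2 := Pool.Agent.H732R2.B2.omega_log k (by omega)
      have g3 : S.filter (fun p => p ∣ k) ⊆ k.primeFactors := by
        intro p hp
        rw [mem_filter] at hp
        rw [Nat.mem_primeFactors]
        exact ⟨(hSp p hp.1).1, hp.2, by omega⟩
      have g4 : ((S.filter (fun p => p ∣ k)).card : ℝ) ≤ k.primeFactors.card := by
        exact_mod_cast card_le_card g3
      have g5 : Real.log k ≤ c * Real.log Y := by
        rw [← Real.log_rpow hY0]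
        exact Real.log_le_log (by exact_mod_cast hk) hkY
      linarith
    calc ∑ p ∈ S.filter (fun p => p ∣ k), 1 / (p : ℝ) ≤
        ∑ p ∈ S.filter (fun p => p ∣ k), 1 / (Y : ℝ) ^ ε₁ := by
          apply sum_le_sum
          intro p hp
          rw [mem_filter] at hp
          exact one_div_le_one_div_of_le (by positivity) (hSp p hp.1).2
      _ = ((S.filter (fun p => p ∣ k)).card : ℝ) / (Y : ℝ) ^ ε₁ := by
          rw [sum_const, nsmul_eq_mul, mul_one_div]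
      _ ≤ (2 * (c * Real.log Y)) / (Y : ℝ) ^ ε₁ := by gcongr
      _ ≤ η / 2 := by
          rw [div_le_iff₀ (by positivity)]
          rw [div_mul_eq_mul_div, div_le_iff₀ hη] at e1
          linarith
  have h4 : 0 ≤ ∑ p ∈ S.filter (fun p => p ∣ k), 1 / (p : ℝ) := sum_nonneg fun p _ => by positivity
  have h1' : |∑ p ∈ S, (ro LF 0 p : ℝ) / p - Real.log (v / u)| ≤ η / 2 := h1
  show |∑ p ∈ S, (ro (LK k l) 0 p : ℝ) / p - Real.log (v / u)| ≤ η
  obtain ⟨a1, a2⟩ := abs_le.1 h1'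
  rw [abs_le]
  constructor <;> linarith

/-- the product of Mertens over the primes below `z` -/
noncomputable def VM (z : ℝ) : ℝ := ∏ p ∈ (range ⌈z⌉₊).filter Nat.Prime, (1 - 1 / (p : ℝ))

theorem VM_lim : Tendsto (fun z : ℝ => VM z * Real.log z) atTop
    (nhds (Real.exp (-Real.eulerMascheroniConstant))) := by
  have h1 := Pool.Agent.Y781.JR.real_version (fun N => Pool.Agent.Y781.JR.GG (N + 1))
    (fun N => (Pool.Agent.Y781.JR.GG_pos _).le) (fun N => Pool.Agent.Y781.JR.GG_le _) _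
    Pool.Agent.Y781.JR.GG_mertens
  refine h1.congr' ?_
  filter_upwards [eventually_gt_atTop (0 : ℝ)] with z hz
  have hc : 0 < ⌈z⌉₊ := Nat.ceil_pos.2 hz
  have h2 : ⌈z⌉₊ - 1 + 1 = ⌈z⌉₊ := Nat.sub_add_cancel hc
  show Pool.Agent.Y781.JR.GG (⌈z⌉₊ - 1 + 1) * Real.log z = VM z * Real.log z
  rw [h2]
  rfl

/-- the sieve density of `k n + l` -/
theorem vv_LK (k : ℕ) (l : ℤ) (hk : 1 ≤ k) (hkl : Int.gcd l k = 1) (Y : ℕ) (hY : 2 ≤ Y) (τ : ℝ)
    (hτ : τ ≤ 1) : VM ((Y : ℝ) ^ τ) ≤ vv (LK k l) Y τ ∧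
      vv (LK k l) Y τ ≤ VM ((Y : ℝ) ^ τ) * ((k : ℝ) / Nat.totient k) := by
  classical
  have hfac : ∀ p : ℕ, p.Prime → 0 < 1 - 1 / (p : ℝ) ∧ 1 - 1 / (p : ℝ) ≤ 1 :=
    Pool.Agent.Y781.JR.fac_pos
  have h1 : vv (LK k l) Y τ = ∏ p ∈ (PZ Y τ).filter (fun p => ¬ p ∣ k), (1 - 1 / (p : ℝ)) := by
    unfold vv
    rw [prod_filter]
    apply prod_congr rfl
    intro p hp
    have hpp : p.Prime := by
      unfold PZ at hp
      exact (mem_filter.1 hp).2.1
    rw [ro_LK k l hkl p hpp]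
    by_cases h : p ∣ k
    · rw [if_pos h, if_neg (by simpa using h)]
      simp
    · rw [if_neg h, if_pos h]
      simp
  have h2 : VM ((Y : ℝ) ^ τ) = (∏ p ∈ (PZ Y τ).filter (fun p => p ∣ k), (1 - 1 / (p : ℝ))) *
      ∏ p ∈ (PZ Y τ).filter (fun p => ¬ p ∣ k), (1 - 1 / (p : ℝ)) := by
    rw [prod_filter_mul_prod_filter_not]
    unfold VM
    rw [PZ_eq Y hY τ hτ]
  have hPp : ∀ p ∈ PZ Y τ, p.Prime := by
    intro p hp
    unfold PZ at hp
    exact (mem_filter.1 hp).2.1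
  set A := ∏ p ∈ (PZ Y τ).filter (fun p => p ∣ k), (1 - 1 / (p : ℝ)) with hA
  set B := ∏ p ∈ (PZ Y τ).filter (fun p => ¬ p ∣ k), (1 - 1 / (p : ℝ)) with hB
  have hA1 : A ≤ 1 := prod_le_one (fun p hp => (hfac p (hPp p (mem_filter.1 hp).1)).1.le)
    (fun p hp => (hfac p (hPp p (mem_filter.1 hp).1)).2)
  have hB0 : 0 ≤ B := prod_nonneg fun p hp => (hfac p (hPp p (mem_filter.1 hp).1)).1.le
  have hk0 : (0 : ℝ) < k := by exact_mod_cast hk
  have hφ : (0 : ℝ) < Nat.totient k := by exact_mod_cast Nat.totient_pos.2 hk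
  have h3 : (Nat.totient k : ℝ) / k ≤ A := by
    have h4 : (Nat.totient k : ℝ) / k = ∏ p ∈ k.primeFactors, (1 - 1 / (p : ℝ)) := by
      have h5 := Nat.totient_eq_mul_prod_factors k
      have h6 : (Nat.totient k : ℝ) = k * ∏ p ∈ k.primeFactors, (1 - (p : ℝ)⁻¹) := by
        have h7 := congrArg (fun q : ℚ => (q : ℝ)) h5
        push_cast at h7
        exact h7
      rw [h6, mul_div_cancel_left₀ _ hk0.ne']
      simp_rw [one_div]
    rw [h4]
    have hsub : (PZ Y τ).filter (fun p => p ∣ k) ⊆ k.primeFactors := by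
      intro p hp
      rw [mem_filter] at hp
      rw [Nat.mem_primeFactors]
      exact ⟨hPp p hp.1, hp.2, by omega⟩
    rw [← prod_sdiff hsub, ← hA]
    have h5 : ∏ p ∈ k.primeFactors \ (PZ Y τ).filter (fun p => p ∣ k), (1 - 1 / (p : ℝ)) ≤ 1 :=
      prod_le_one (fun p hp => (hfac p (Nat.prime_of_mem_primeFactors (mem_sdiff.1 hp).1)).1.le)
        (fun p hp => (hfac p (Nat.prime_of_mem_primeFactors (mem_sdiff.1 hp).1)).2)
    have hA0 : 0 ≤ A := prod_nonneg fun p hp => (hfac p (hPp p (mem_filter.1 hp).1)).1.le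
    calc (∏ p ∈ k.primeFactors \ (PZ Y τ).filter (fun p => p ∣ k), (1 - 1 / (p : ℝ))) * A ≤ 1 * A :=
          mul_le_mul_of_nonneg_right h5 hA0
      _ = A := one_mul _
  rw [h1, h2]
  constructor
  · calc A * B ≤ 1 * B := mul_le_mul_of_nonneg_right hA1 hB0
      _ = B := one_mul _
  · have h4 : 1 ≤ A * ((k : ℝ) / Nat.totient k) := by
      rw [div_le_iff₀ hk0] at h3
      rw [mul_div_assoc', le_div_iff₀ hφ]
      linarith
    calc B = B * 1 := (mul_one _).symm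
      _ ≤ B * (A * ((k : ℝ) / Nat.totient k)) := mul_le_mul_of_nonneg_left h4 hB0
      _ = _ := by ring

end Pool.Agent.Y882.BT
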