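import Pool.Agent.Y882.BT.Lin

/-! The inequality of Brun and Titchmarsh with a smaller constant at almost all positions. -/

set_option autoImplicit false

namespace Pool.Agent.Y882.BT

open Finset Filter
open Pool.Agent.W23.DC
open Pool.Agent.Y882.PX
open Pool.Agent.Y882.SI
open Pool.Agent.Y882.MG
open Pool.Agent.Y882.JR

/-- the number of the primes `p ≡ l` modulo `k` with `a < p ≤ b` -/
def primesIn (k : ℕ) (l : ℤ) (a b : ℕ) : ℕ :=
  ((Ioc a b).filter (fun p : ℕ => p.Prime ∧ (p : ℤ) ≡ l [ZMOD k])).card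

theorem primes_le_rgh (k : ℕ) (l : ℤ) (hk : 1 ≤ k) (hkl : Int.gcd l k = 1) :
    ∃ l' : ℤ, Int.gcd l' k = 1 ∧ ∀ (Y : ℕ) (τ : ℝ) (M H : ℕ), 2 ≤ Y → (Y : ℝ) ^ τ ≤ M →
      (primesIn k l (k * M) (k * (M + H)) : ℝ) ≤ rgh (LK k l') Y τ H M := by
  classical
  have hk0 : (0 : ℤ) < k := by exact_mod_cast hk
  obtain ⟨l', hl'⟩ : ∃ l' : ℤ, l' = -((-l) % k) := ⟨_, rfl⟩
  have hm0 : 0 ≤ (-l) % (k : ℤ) := Int.emod_nonneg _ hk0.ne'
  have hm1 : (-l) % (k : ℤ) < k := Int.emod_lt_of_pos _ hk0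
  have hdvd : (k : ℤ) ∣ l - l' := by
    have h1 : (k : ℤ) ∣ (-l) - (-l) % k := Int.dvd_self_sub_emod
    have h2 : l - l' = -((-l) - (-l) % k) := by
      rw [hl']
      ring
    rw [h2]
    exact (dvd_neg).2 h1
  have hgcd : Int.gcd l' k = 1 := by
    obtain ⟨c, hc⟩ := hdvd
    have h1 : l = l' + c * k := by linarith
    rw [h1, Int.gcd_add_mul_right_left] at hkl
    exact hkl
  refine ⟨l', hgcd, ?_⟩
  intro Y τ M H hY hM
  unfold primesIn rgh
  have hkey : ∀ p : ℕ, p ∈ (Ioc (k * M) (k * (M + H))).filter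
      (fun p : ℕ => p.Prime ∧ (p : ℤ) ≡ l [ZMOD k]) →
      ∃ m : ℕ, (p : ℤ) = k * m + l' ∧ M < m ∧ m ≤ M + H := by
    intro p hp
    rw [mem_filter, mem_Ioc] at hp
    obtain ⟨⟨h1, h2⟩, h3, h4⟩ := hp
    have h5 : (k : ℤ) ∣ (p : ℤ) - l := (Int.ModEq.symm h4).dvd
    have h6 : (k : ℤ) ∣ (p : ℤ) - l' := by
      have := dvd_add h5 hdvd
      have e : (p : ℤ) - l + (l - l') = (p : ℤ) - l' := by ring
      rwa [e] at this
    obtain ⟨m, hm⟩ := h6
    have h7 : (k : ℤ) * M < p := by exact_mod_cast h1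
    have h8 : (p : ℤ) ≤ k * (M + H) := by exact_mod_cast h2
    have h9 : (M : ℤ) < m := by
      have : (k : ℤ) * M < k * m := by
        have : l' ≤ 0 := by rw [hl']; linarith
        linarith
      exact lt_of_mul_lt_mul_left this hk0.le
    have h10 : m < (M : ℤ) + H + 1 := by
      have : (k : ℤ) * m < k * (M + H + 1) := by
        have h11 : -(k : ℤ) < l' := by rw [hl']; linarith
        have : (k : ℤ) * (M + H + 1) = k * (M + H) + k := by ring
        rw [this]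
        linarith
      exact lt_of_mul_lt_mul_left this hk0.le
    have hm0' : 0 ≤ m := by
      have : (0 : ℤ) ≤ M := Int.natCast_nonneg _
      linarith
    refine ⟨m.toNat, ?_, ?_, ?_⟩
    · rw [Int.toNat_of_nonneg hm0']
      linarith
    · have : (M : ℤ) < (m.toNat : ℤ) := by rwa [Int.toNat_of_nonneg hm0']
      exact_mod_cast this
    · have : (m.toNat : ℤ) ≤ (M : ℤ) + H := by
        rw [Int.toNat_of_nonneg hm0']
        linarith
      exact_mod_cast this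
  apply Nat.cast_le.2
  apply card_le_card_of_injOn (fun p : ℕ => (((p : ℤ) - l') / k).toNat - M)
  · intro p hp
    rw [mem_coe] at hp
    obtain ⟨m, hm1', hm2, hm3⟩ := hkey p hp
    show (((p : ℤ) - l') / k).toNat - M ∈ _
    have e1 : ((p : ℤ) - l') / k = m := by
      rw [hm1', add_sub_cancel_right, Int.mul_ediv_cancel_left _ hk0.ne']
    rw [e1, Int.toNat_natCast, mem_coe, mem_filter, mem_Icc]
    refine ⟨⟨by omega, by omega⟩, ?_⟩
    intro q hq hqd
    rw [LK_eval] at hqd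
    have e2 : ((M + (m - M) : ℕ) : ℤ) = m := by
      have : M + (m - M) = m := by omega
      rw [this]
    rw [e2, ← hm1', Int.natAbs_natCast] at hqd
    rw [mem_filter, mem_Ioc] at hp
    unfold PZ at hq
    rw [mem_filter, mem_Icc] at hq
    have e3 : q = p := (Nat.prime_dvd_prime_iff_eq hq.2.1 hp.2.1).1 hqd
    have e4 : (q : ℝ) < (Y : ℝ) ^ τ := (tt_lt Y q τ hY hq.2.1.pos).1 hq.2.2
    have e5 : M < p := lt_of_le_of_lt (Nat.le_mul_of_pos_left M (by omega)) hp.1.1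
    have e6 : (M : ℝ) < p := by exact_mod_cast e5
    rw [e3] at e4
    linarith
  · intro p hp p' hp' hpp
    rw [mem_coe] at hp hp'
    obtain ⟨m, hm1', hm2, hm3⟩ := hkey p hp
    obtain ⟨m', hm1'', hm2', hm3'⟩ := hkey p' hp'
    have e1 : ((p : ℤ) - l') / k = m := by
      rw [hm1', add_sub_cancel_right, Int.mul_ediv_cancel_left _ hk0.ne']
    have e1' : ((p' : ℤ) - l') / k = m' := by
      rw [hm1'', add_sub_cancel_right, Int.mul_ediv_cancel_left _ hk0.ne']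
    have h : (((p : ℤ) - l') / k).toNat - M = (((p' : ℤ) - l') / k).toNat - M := hpp
    rw [e1, e1', Int.toNat_natCast, Int.toNat_natCast] at h
    have : m = m' := by omega
    have h2 : (p : ℤ) = p' := by rw [hm1', hm1'', this]
    exact_mod_cast h2

open Classical in
/-- **Few positions with more primes.** -/
theorem main {A0 : ℝ} {F f : ℝ → ℝ} (hSF : SF A0 F f)
    (hA : A0 = 2 * Real.exp Real.eulerMascheroniConstant) (c τ δ ε : ℝ) (hc : 0 ≤ c)
    (hτ1 : 1 / 2 ≤ τ) (hτ : τ < 1) (hδ : 0 < δ) (hε : 0 < ε) :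
    ∃ X0 : ℕ, ∀ X : ℕ, X0 ≤ X → ∀ (k : ℕ) (l : ℤ), 1 ≤ k → (k : ℝ) ≤ (X : ℝ) ^ c →
      Int.gcd l k = 1 → ∀ H : ℕ, 1 ≤ H → (H : ℝ) ≤ (X : ℝ) ^ τ →
      (((Icc 1 X).filter (fun M : ℕ =>
        (2 / τ + δ) * (k * H / (Nat.totient k * Real.log X)) <
          (primesIn k l (k * M) (k * (M + H)) : ℝ))).card : ℝ) ≤
      (X : ℝ) ^ (2 * τ + ε) / H := by
  have hτ0 : 0 < τ := by linarith
  have hA0 := hSF.pos
  set E : ℝ := Real.exp (-Real.eulerMascheroniConstant) with hE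
  have hE0 : 0 < E := Real.exp_pos _
  have hAE : A0 * E = 2 := by
    rw [hA, hE, mul_assoc, ← Real.exp_add]
    simp
  have hF1 : F 1 = A0 := by
    rw [hSF.F3 1 le_rfl (by norm_num), div_one]
  -- the small parameter
  obtain ⟨θ, hθ0, hθ⟩ : ∃ θ : ℝ, 0 < θ ∧ (A0 + θ) * (E + θ) ≤ 2 + δ * τ := by
    have hcont : Tendsto (fun θ : ℝ => (A0 + θ) * (E + θ)) (nhdsWithin 0 (Set.Ioi 0))
        (nhds ((A0 + 0) * (E + 0))) := by
      apply Tendsto.mono_left _ nhdsWithin_le_nhds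
      exact (Continuous.tendsto (by fun_prop) 0)
    have h1 : (A0 + 0) * (E + 0) < 2 + δ * τ := by
      have : (A0 + 0) * (E + 0) = A0 * E := by ring
      rw [this, hAE]
      have : 0 < δ * τ := by positivity
      linarith
    have h2 := (hcont.eventually (gt_mem_nhds h1)).and self_mem_nhdsWithin
    obtain ⟨θ, h3, h4⟩ := h2.exists
    exact ⟨θ, h4, h3.le⟩
  obtain ⟨ε₁, η, hε₁, hε₁ζ, hη, Y1, HE⟩ := engJR 1 A0 F f hSF τ τ θ (ε / 2) hτ0 le_rfl hτ hθ0
    (by linarith)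
  rw [div_self hτ0.ne', hF1] at HE
  obtain ⟨Y2, HM⟩ := mer_LK c ε₁ τ η hc hε₁ hτ.le hη
  have hlim : Tendsto (fun X : ℕ => VM ((X : ℝ) ^ τ) * Real.log ((X : ℝ) ^ τ)) atTop (nhds E) := by
    have h1 : Tendsto (fun X : ℕ => ((X : ℝ) ^ τ)) atTop atTop :=
      (tendsto_rpow_atTop hτ0).comp tendsto_natCast_atTop_atTop
    exact VM_lim.comp h1
  have ev1 : ∀ᶠ X : ℕ in atTop, VM ((X : ℝ) ^ τ) * Real.log ((X : ℝ) ^ τ) ≤ E + θ :=
    hlim.eventually (ge_mem_nhds (by linarith))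
  have ev2 : ∀ᶠ X : ℕ in atTop, E / 2 ≤ VM ((X : ℝ) ^ τ) * Real.log ((X : ℝ) ^ τ) :=
    hlim.eventually (le_mem_nhds (by linarith))
  have ev3 : ∀ᶠ Y : ℕ in atTop, (2 * τ / E) * Real.log Y ≤ (Y : ℝ) ^ (ε / 2 / 32) := by
    have h1 := (isLittleO_log_rpow_atTop (show 0 < ε / 2 / 32 by linarith)).bound
      (show (0 : ℝ) < 1 / (2 * τ / E) by positivity)
    filter_upwards [tendsto_natCast_atTop_atTop.eventually h1, eventually_ge_atTop 1] with Y hY hY1
    have hY1r : (1 : ℝ) ≤ Y := by exact_mod_cast hY1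
    rw [Real.norm_of_nonneg (Real.log_nonneg hY1r), Real.norm_of_nonneg (by positivity)] at hY
    rw [div_mul_eq_mul_div, one_mul, le_div_iff₀ (by positivity)] at hY
    linarith
  have ev4 : ∀ᶠ X : ℕ in atTop, (3 : ℝ) ≤ (X : ℝ) ^ (ε / 2) :=
    ((tendsto_rpow_atTop (by linarith)).comp tendsto_natCast_atTop_atTop).eventually_ge_atTop _
  obtain ⟨Y3, hY3⟩ := eventually_atTop.1
    (ev1.and (ev2.and (ev3.and (ev4.and (eventually_ge_atTop 3)))))
  refine ⟨max (max Y1 Y2) Y3, ?_⟩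
  intro X hX k l hk hkX hkl H hH hHX
  have hX1 : Y1 ≤ X := ((le_max_left _ _).trans (le_max_left _ _)).trans hX
  have hX2 : Y2 ≤ X := ((le_max_right _ _).trans (le_max_left _ _)).trans hX
  obtain ⟨e1, e2, e3, e4, e5⟩ := hY3 X ((le_max_right _ _).trans hX)
  have hXr : (3 : ℝ) ≤ X := by exact_mod_cast e5
  have hX0 : (0 : ℝ) < X := by linarith
  have hX1r : (1 : ℝ) ≤ X := by linarith
  have hlX : 0 < Real.log X := Real.log_pos (by linarith)
  have hHr : (0 : ℝ) < H := by exact_mod_cast hH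
  have hk0 : (0 : ℝ) < k := by exact_mod_cast hk
  have hφ : (0 : ℝ) < Nat.totient k := by exact_mod_cast Nat.totient_pos.2 hk
  rw [Real.log_rpow hX0] at e1 e2
  obtain ⟨l', hl', hrgh⟩ := primes_le_rgh k l hk hkl
  obtain ⟨v1, v2⟩ := vv_LK k l' hk hl' X (by omega) τ hτ.le
  have hVpos : 0 < VM ((X : ℝ) ^ τ) := by
    by_contra hcon
    push Not at hcon
    have : VM ((X : ℝ) ^ τ) * (τ * Real.log X) ≤ 0 :=
      mul_nonpos_of_nonpos_of_nonneg hcon (by positivity)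
    linarith
  have hV : (X : ℝ) ^ (-(ε / 2 / 32)) ≤ vv (LK k l') X τ := by
    refine le_trans ?_ v1
    rw [Real.rpow_neg hX0.le]
    have h6 : 1 / ((2 * τ / E) * Real.log X) ≤ VM ((X : ℝ) ^ τ) := by
      rw [div_le_iff₀ (by positivity)]
      have : VM ((X : ℝ) ^ τ) * (2 * τ / E * Real.log X) =
          2 / E * (VM ((X : ℝ) ^ τ) * (τ * Real.log X)) := by ring
      rw [this]
      calc (1 : ℝ) = 2 / E * (E / 2) := by field_simp
        _ ≤ _ := mul_le_mul_of_nonneg_left e2 (by positivity)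
    refine le_trans ?_ h6
    rw [one_div]
    exact inv_anti₀ (by positivity) e3
  have hmain := HE X hX1 (LK k l') X H (fun p hp => ro_LK_le k l' hl' p hp) (by omega) hV
    (HM X hX2 k l' hk hkX hl')
  set W : ℕ := ⌊(X : ℝ) ^ τ⌋₊ with hW
  have hsub : (Icc 1 X).filter (fun M : ℕ =>
        (2 / τ + δ) * (k * H / (Nat.totient k * Real.log X)) <
          (primesIn k l (k * M) (k * (M + H)) : ℝ)) ⊆
      (Icc 1 X).filter (fun N => ¬ ((f 1 - θ) * (H * vv (LK k l') X τ) ≤ rgh (LK k l') X τ H N ∧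
          rgh (LK k l') X τ H N ≤ (A0 + θ) * (H * vv (LK k l') X τ))) ∪ Icc 1 W := by
    intro M hM
    rw [mem_filter] at hM
    rw [mem_union]
    by_cases hMW : M ≤ W
    · right
      rw [mem_Icc] at hM ⊢
      exact ⟨hM.1.1, hMW⟩
    · left
      rw [mem_filter]
      refine ⟨hM.1, ?_⟩
      intro hcon
      push Not at hMW
      have h1 : (X : ℝ) ^ τ < M := Nat.lt_of_floor_lt hMW
      have h2 := hrgh X τ M H (by omega) h1.le
      apply absurd hM.2 (not_lt.2 _)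
      refine h2.trans (hcon.2.trans ?_)
      have h3 : vv (LK k l') X τ ≤ (E + θ) / (τ * Real.log X) * ((k : ℝ) / Nat.totient k) := by
        refine v2.trans ?_
        apply mul_le_mul_of_nonneg_right _ (by positivity)
        rw [le_div_iff₀ (by positivity)]
        exact e1
      calc (A0 + θ) * (H * vv (LK k l') X τ) ≤
          (A0 + θ) * (H * ((E + θ) / (τ * Real.log X) * ((k : ℝ) / Nat.totient k))) := by gcongr
        _ = ((A0 + θ) * (E + θ)) / τ * (k * H / (Nat.totient k * Real.log X)) := by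
            field_simp
        _ ≤ (2 + δ * τ) / τ * (k * H / (Nat.totient k * Real.log X)) := by gcongr
        _ = _ := by
            field_simp
  have hWle : (W : ℝ) ≤ (X : ℝ) ^ (2 * τ + ε / 2) / H := by
    refine (Nat.floor_le (by positivity)).trans ?_
    rw [le_div_iff₀ hHr]
    calc (X : ℝ) ^ τ * H ≤ (X : ℝ) ^ τ * (X : ℝ) ^ τ := mul_le_mul_of_nonneg_left hHX (by positivity)
      _ = (X : ℝ) ^ (2 * τ) := by
          rw [← Real.rpow_add hX0]
          congr 1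
          ring
      _ ≤ _ := Real.rpow_le_rpow_of_exponent_le hX1r (by linarith)
  have h5 : (X + (X : ℝ) ^ (2 * τ)) / H * (X : ℝ) ^ (ε / 2) ≤ 2 * ((X : ℝ) ^ (2 * τ + ε / 2) / H) := by
    have u1 : (X : ℝ) ≤ (X : ℝ) ^ (2 * τ) := by
      calc (X : ℝ) = (X : ℝ) ^ (1 : ℝ) := (Real.rpow_one _).symm
        _ ≤ _ := Real.rpow_le_rpow_of_exponent_le hX1r (by linarith)
    calc (X + (X : ℝ) ^ (2 * τ)) / H * (X : ℝ) ^ (ε / 2) ≤
        (2 * (X : ℝ) ^ (2 * τ)) / H * (X : ℝ) ^ (ε / 2) := by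
          apply mul_le_mul_of_nonneg_right _ (by positivity)
          apply div_le_div_of_nonneg_right _ hHr.le
          linarith
      _ = 2 * (((X : ℝ) ^ (2 * τ) * (X : ℝ) ^ (ε / 2)) / H) := by ring
      _ = _ := by rw [← Real.rpow_add hX0]
  calc (((Icc 1 X).filter (fun M : ℕ =>
        (2 / τ + δ) * (k * H / (Nat.totient k * Real.log X)) <
          (primesIn k l (k * M) (k * (M + H)) : ℝ))).card : ℝ) ≤
      ((((Icc 1 X).filter (fun N => ¬ ((f 1 - θ) * (H * vv (LK k l') X τ) ≤ rgh (LK k l') X τ H N ∧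
          rgh (LK k l') X τ H N ≤ (A0 + θ) * (H * vv (LK k l') X τ))) ∪ Icc 1 W).card : ℕ) : ℝ) := by
        exact_mod_cast card_le_card hsub
    _ ≤ (X + (X : ℝ) ^ (2 * τ)) / H * (X : ℝ) ^ (ε / 2) + W := by
        refine (Nat.cast_le.2 (card_union_le _ _)).trans ?_
        push_cast
        rw [Nat.card_Icc, Nat.add_sub_cancel]
        exact add_le_add hmain le_rfl
    _ ≤ 3 * ((X : ℝ) ^ (2 * τ + ε / 2) / H) := by linarith
    _ ≤ (X : ℝ) ^ (ε / 2) * ((X : ℝ) ^ (2 * τ + ε / 2) / H) := by gcongr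
    _ = ((X : ℝ) ^ (ε / 2) * (X : ℝ) ^ (2 * τ + ε / 2)) / H := by ring
    _ = _ := by
        rw [← Real.rpow_add hX0]
        congr 2
        ring

end Pool.Agent.Y882.BT
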